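import Pool.Agent.T9h87.Lin.Spec

/-!
# All separations (piece D)
-/

set_option autoImplicit false

namespace Pool.Agent.T9h80.Lin

open Finset Pool.Agent.T9h87.Lin
open scoped Classical

theorem Sep.mono {n : ℕ} {g : Fin 7 × Fin n → V4} {Y Y' : Fin 7 → Finset (Fin n)}
    {I J : Finset (Fin 7)} (h : Sep g Y I J) (hY : ∀ k, Y' k ⊆ Y k) : Sep g Y' I J := by
  obtain ⟨l, c, h1, h2⟩ := h
  exact ⟨l, c, fun k hk a ha => h1 k hk a (hY k ha), fun k hk a ha => h2 k hk a (hY k ha)⟩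

theorem sep_list (h : StStep) {n : ℕ} (g : Fin 7 × Fin n → V4) (hg : GP g)
    (P : Finset (Finset (Fin 7) × Finset (Fin 7))) :
    ∃ Y : Fin 7 → Finset (Fin n), (∀ k, n + 5 ≤ 5 ^ P.card * ((Y k).card + 5)) ∧
      ∀ p ∈ P, Disjoint p.1 p.2 → p.1.card + p.2.card ≤ 5 → Sep g Y p.1 p.2 := by
  induction P using Finset.induction_on with
  | empty =>
    refine ⟨fun _ => univ, fun k => ?_, fun p hp => absurd hp (notMem_empty _)⟩
    rw [card_empty, pow_zero, one_mul, card_univ, Fintype.card_fin]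
  | insert p P hp ih =>
    obtain ⟨Y, h1, h2⟩ := ih
    by_cases hd : Disjoint p.1 p.2 ∧ p.1.card + p.2.card ≤ 5
    · obtain ⟨Y', h3, h4, h5⟩ := h n g hg Y p.1 p.2 hd.1 hd.2
      refine ⟨Y', fun k => ?_, fun p' hp' hd' hc' => ?_⟩
      · rw [card_insert_of_notMem hp, pow_succ, mul_assoc]
        refine (h1 k).trans (Nat.mul_le_mul_left _ ?_)
        have := h4 k
        omega
      · rcases mem_insert.1 hp' with rfl | hp'
        · exact h5
        · exact Sep.mono (h2 p' hp' hd' hc') h3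
    · refine ⟨Y, fun k => ?_, fun p' hp' hd' hc' => ?_⟩
      · rw [card_insert_of_notMem hp, pow_succ, mul_assoc]
        refine (h1 k).trans (Nat.mul_le_mul_left _ ?_)
        omega
      · rcases mem_insert.1 hp' with rfl | hp'
        · exact absurd ⟨hd', hc'⟩ hd
        · exact h2 p' hp' hd' hc'

/-- (D) -/
theorem stSepAll (h : StStep) : StSepAll := by
  obtain ⟨U, hU⟩ : ∃ U : Finset (Finset (Fin 7) × Finset (Fin 7)), ∀ p, p ∈ U :=
    ⟨(Set.toFinite (Set.univ : Set (Finset (Fin 7) × Finset (Fin 7)))).toFinset, fun p => by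
      rw [Set.Finite.mem_toFinset]; exact Set.mem_univ p⟩
  have hpos : 0 < 5 ^ U.card := pow_pos (by norm_num) _
  refine ⟨10 * 5 ^ U.card, by omega, ?_⟩
  intro n g hg hn
  obtain ⟨Y, h1, h2⟩ := sep_list h g hg U
  refine ⟨Y, fun k => ?_, fun I J hd hc => h2 (I, J) (hU _) hd hc⟩
  have h3 := h1 k
  have e : 5 ^ U.card * ((Y k).card + 5) = 5 ^ U.card * (Y k).card + 5 * 5 ^ U.card := by ring
  rw [e] at h3
  have e2 : 10 * 5 ^ U.card * (Y k).card = 10 * (5 ^ U.card * (Y k).card) := by ring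
  rw [e2]
  omega

end Pool.Agent.T9h80.Lin
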