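import Pool.Agent.T9h87.Lin.Spec

/-!
# Quasi-random linear hypergraphs (piece G)
-/

set_option autoImplicit false

namespace Pool.Agent.T9h80.Lin

open Finset Pool.Agent.T9h87.Lin
open scoped Classical

/-- boxes -/
abbrev Bt (n : ℕ) : Type :=
  (Fin 7 × Fin 7 × Fin 7) × (Finset (Fin n) × Finset (Fin n) × Finset (Fin n))

/-- triples -/
abbrev Tt (n : ℕ) : Type := (Fin 7 × Fin 7 × Fin 7) × (Fin n × Fin n × Fin n)

variable {n : ℕ}

/-- the triple as a set -/
def tri (t : Tt n) : Finset (Fin 7 × Fin n) :=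
  {(t.1.1, t.2.1), (t.1.2.1, t.2.2.1), (t.1.2.2, t.2.2.2)}

/-- the triple is in the box -/
def In (t : Tt n) (β : Bt n) : Prop :=
  t.1 = β.1 ∧ t.2.1 ∈ β.2.1 ∧ t.2.2.1 ∈ β.2.2.1 ∧ t.2.2.2 ∈ β.2.2.2

/-- ordered indices -/
def Ord (x : Fin 7 × Fin 7 × Fin 7) : Prop := x.1 < x.2.1 ∧ x.2.1 < x.2.2

/-- large boxes -/
def Good (q : ℕ) (β : Bt n) : Prop :=
  Ord β.1 ∧ n ≤ q * β.2.1.card ∧ n ≤ q * β.2.2.1.card ∧ n ≤ q * β.2.2.2.card

/-- admissible triples -/
def Adm (H : Finset (Finset (Fin 7 × Fin n))) (t : Tt n) : Prop :=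
  Ord t.1 ∧ ∀ T ∈ H, (tri t ∩ T).card ≤ 1

theorem two_of {t : Tt n} {T : Finset (Fin 7 × Fin n)} (h : 2 ≤ (tri t ∩ T).card) :
    ((t.1.1, t.2.1) ∈ T ∧ (t.1.2.1, t.2.2.1) ∈ T) ∨
    ((t.1.1, t.2.1) ∈ T ∧ (t.1.2.2, t.2.2.2) ∈ T) ∨
    ((t.1.2.1, t.2.2.1) ∈ T ∧ (t.1.2.2, t.2.2.2) ∈ T) := by
  by_contra hcon
  push Not at hcon
  obtain ⟨h1, h2, h3⟩ := hcon
  have h4 : ∃ x, tri t ∩ T ⊆ {x} := by
    by_cases e1 : (t.1.1, t.2.1) ∈ T
    · refine ⟨(t.1.1, t.2.1), fun y hy => ?_⟩
      rw [mem_inter, tri, mem_insert, mem_insert, mem_singleton] at hy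
      rw [mem_singleton]
      rcases hy with ⟨rfl | rfl | rfl, hy⟩
      · rfl
      · exact absurd hy (h1 e1)
      · exact absurd hy (h2 e1)
    · by_cases e2 : (t.1.2.1, t.2.2.1) ∈ T
      · refine ⟨(t.1.2.1, t.2.2.1), fun y hy => ?_⟩
        rw [mem_inter, tri, mem_insert, mem_insert, mem_singleton] at hy
        rw [mem_singleton]
        rcases hy with ⟨rfl | rfl | rfl, hy⟩
        · exact absurd hy e1
        · rfl
        · exact absurd hy (h3 e2)
      · refine ⟨(t.1.2.2, t.2.2.2), fun y hy => ?_⟩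
        rw [mem_inter, tri, mem_insert, mem_insert, mem_singleton] at hy
        rw [mem_singleton]
        rcases hy with ⟨rfl | rfl | rfl, hy⟩
        · exact absurd hy e1
        · exact absurd hy e2
        · rfl
  obtain ⟨x, hx⟩ := h4
  have h5 := card_le_card hx
  rw [card_singleton] at h5
  omega

/-- the number of admissible triples in a box -/
theorem count_box (H : Finset (Finset (Fin 7 × Fin n))) (hH : ∀ T ∈ H, T.card ≤ 3) (q : ℕ)
    (β : Bt n) (hβ : Good q β) :
    n ^ 3 ≤ q ^ 3 * ((univ.filter fun t : Tt n => Adm H t ∧ In t β).card + 27 * n * H.card) := by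
  obtain ⟨⟨i, j, k⟩, ⟨A, B, C⟩⟩ := β
  obtain ⟨hord, hA, hB, hC⟩ := hβ
  simp only at hord hA hB hC
  have h0 : n ^ 3 ≤ q ^ 3 * (A ×ˢ (B ×ˢ C)).card := by
    rw [card_product, card_product]
    calc n ^ 3 = n * (n * n) := by ring
      _ ≤ (q * A.card) * ((q * B.card) * (q * C.card)) :=
        Nat.mul_le_mul hA (Nat.mul_le_mul hB hC)
      _ = _ := by ring
  refine h0.trans (Nat.mul_le_mul_left _ ?_)
  -- the bad triples
  let Bad : Finset (Fin n × Fin n × Fin n) := H.biUnion fun T =>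
    (univ.filter fun x : Fin n × Fin n × Fin n => (i, x.1) ∈ T ∧ (j, x.2.1) ∈ T) ∪
    ((univ.filter fun x : Fin n × Fin n × Fin n => (i, x.1) ∈ T ∧ (k, x.2.2) ∈ T) ∪
    (univ.filter fun x : Fin n × Fin n × Fin n => (j, x.2.1) ∈ T ∧ (k, x.2.2) ∈ T))
  have hBad : Bad.card ≤ 27 * n * H.card := by
    refine (card_biUnion_le_card_mul _ _ (27 * n) ?_).trans (le_of_eq (mul_comm _ _))
    intro T hT
    have hT3 : T.card * T.card ≤ 9 := by
      have := hH T hT
      nlinarith
    have c1 : (univ.filter fun x : Fin n × Fin n × Fin n => (i, x.1) ∈ T ∧ (j, x.2.1) ∈ T).card ≤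
        9 * n := by
      refine (card_le_card_of_injOn (t := (T ×ˢ T) ×ˢ (univ : Finset (Fin n)))
        (fun x => (((i, x.1), (j, x.2.1)), x.2.2)) ?_ ?_).trans ?_
      · intro x hx
        rw [mem_coe, mem_filter] at hx
        simp only [coe_product, Set.mem_prod, mem_coe, mem_univ, and_true]
        exact hx.2
      · rintro ⟨a, b, c⟩ _ ⟨a', b', c'⟩ _ h
        simp only [Prod.mk.injEq, true_and] at h
        obtain ⟨⟨rfl, rfl⟩, rfl⟩ := h
        rfl
      · rw [card_product, card_product, card_univ, Fintype.card_fin]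
        exact Nat.mul_le_mul_right _ hT3
    have c2 : (univ.filter fun x : Fin n × Fin n × Fin n => (i, x.1) ∈ T ∧ (k, x.2.2) ∈ T).card ≤
        9 * n := by
      refine (card_le_card_of_injOn (t := (T ×ˢ T) ×ˢ (univ : Finset (Fin n)))
        (fun x => (((i, x.1), (k, x.2.2)), x.2.1)) ?_ ?_).trans ?_
      · intro x hx
        rw [mem_coe, mem_filter] at hx
        simp only [coe_product, Set.mem_prod, mem_coe, mem_univ, and_true]
        exact hx.2
      · rintro ⟨a, b, c⟩ _ ⟨a', b', c'⟩ _ h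
        simp only [Prod.mk.injEq, true_and] at h
        obtain ⟨⟨rfl, rfl⟩, rfl⟩ := h
        rfl
      · rw [card_product, card_product, card_univ, Fintype.card_fin]
        exact Nat.mul_le_mul_right _ hT3
    have c3 : (univ.filter fun x : Fin n × Fin n × Fin n => (j, x.2.1) ∈ T ∧ (k, x.2.2) ∈ T).card ≤
        9 * n := by
      refine (card_le_card_of_injOn (t := (T ×ˢ T) ×ˢ (univ : Finset (Fin n)))
        (fun x => (((j, x.2.1), (k, x.2.2)), x.1)) ?_ ?_).trans ?_
      · intro x hx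
        rw [mem_coe, mem_filter] at hx
        simp only [coe_product, Set.mem_prod, mem_coe, mem_univ, and_true]
        exact hx.2
      · rintro ⟨a, b, c⟩ _ ⟨a', b', c'⟩ _ h
        simp only [Prod.mk.injEq, true_and] at h
        obtain ⟨⟨rfl, rfl⟩, rfl⟩ := h
        rfl
      · rw [card_product, card_product, card_univ, Fintype.card_fin]
        exact Nat.mul_le_mul_right _ hT3
    refine (card_union_le _ _).trans ?_
    have := card_union_le
      (univ.filter fun x : Fin n × Fin n × Fin n => (i, x.1) ∈ T ∧ (k, x.2.2) ∈ T)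
      (univ.filter fun x : Fin n × Fin n × Fin n => (j, x.2.1) ∈ T ∧ (k, x.2.2) ∈ T)
    omega
  have hsub : A ×ˢ (B ×ˢ C) ⊆
      ((univ.filter fun t : Tt n => Adm H t ∧ In t ((i, j, k), (A, B, C))).image Prod.snd) ∪
        Bad := by
    rintro ⟨a, b, c⟩ hx
    rw [mem_product, mem_product] at hx
    simp only at hx
    rw [mem_union]
    by_cases hadm : Adm H ((i, j, k), (a, b, c))
    · left
      rw [mem_image]
      exact ⟨((i, j, k), (a, b, c)), mem_filter.2 ⟨mem_univ _, hadm, rfl, hx.1, hx.2.1, hx.2.2⟩, rfl⟩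
    · right
      have h1 : ∃ T ∈ H, 2 ≤ (tri ((i, j, k), (a, b, c)) ∩ T).card := by
        by_contra hcon
        push Not at hcon
        exact hadm ⟨hord, fun T hT => by have := hcon T hT; omega⟩
      obtain ⟨T, hT, h2⟩ := h1
      refine mem_biUnion.2 ⟨T, hT, ?_⟩
      rw [mem_union, mem_union, mem_filter, mem_filter, mem_filter]
      rcases two_of h2 with h | h | h
      · exact Or.inl ⟨mem_univ _, h⟩
      · exact Or.inr (Or.inl ⟨mem_univ _, h⟩)
      · exact Or.inr (Or.inr ⟨mem_univ _, h⟩)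
  exact (card_le_card hsub).trans ((card_union_le _ _).trans
    (Nat.add_le_add card_image_le hBad))

/-- one step -/
theorem step (H : Finset (Finset (Fin 7 × Fin n))) (hH : ∀ T ∈ H, T.card ≤ 3) (q : ℕ)
    (U : Finset (Bt n)) (hU : ∀ β ∈ U, Good q β) (hne : U.Nonempty) (hn : 0 < n)
    (hm : 54 * q ^ 3 * H.card ≤ n ^ 2) :
    ∃ t, Adm H t ∧ U.card ≤ 700 * q ^ 3 * (U.filter fun β => In t β).card := by
  by_contra hcon
  push Not at hcon
  set S : Finset (Tt n) := univ.filter fun t => Adm H t with hS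
  have h1 : ∑ t ∈ S, (U.filter fun β => In t β).card =
      ∑ β ∈ U, (S.filter fun t => In t β).card := by
    simp only [card_filter]
    rw [sum_comm]
  have h2 : ∀ β ∈ U, n ^ 3 ≤ 2 * q ^ 3 * (S.filter fun t => In t β).card := by
    intro β hβ
    have h3 := count_box H hH q β (hU β hβ)
    have h4 : (univ.filter fun t : Tt n => Adm H t ∧ In t β) = S.filter fun t => In t β := by
      rw [hS, filter_filter]
    rw [h4] at h3
    have h5 : 54 * q ^ 3 * H.card * n ≤ n ^ 2 * n := Nat.mul_le_mul_right _ hm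
    nlinarith
  have h3 : U.card * n ^ 3 ≤ 2 * q ^ 3 * ∑ t ∈ S, (U.filter fun β => In t β).card := by
    rw [h1, mul_sum]
    calc U.card * n ^ 3 = ∑ β ∈ U, n ^ 3 := by rw [sum_const, smul_eq_mul]
      _ ≤ _ := sum_le_sum h2
  have h4 : 700 * q ^ 3 * ∑ t ∈ S, (U.filter fun β => In t β).card ≤ S.card * U.card := by
    rw [mul_sum]
    calc ∑ t ∈ S, 700 * q ^ 3 * (U.filter fun β => In t β).card ≤ ∑ t ∈ S, U.card :=
          sum_le_sum fun t ht => (hcon t (mem_filter.1 ht).2).le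
      _ = S.card * U.card := by rw [sum_const, smul_eq_mul]
  have h5 : S.card ≤ 343 * n ^ 3 := by
    refine (card_le_univ S).trans (le_of_eq ?_)
    simp only [Fintype.card_prod, Fintype.card_fin]
    ring
  have h6 : 0 < U.card * n ^ 3 := Nat.mul_pos (card_pos.2 hne) (pow_pos hn 3)
  have h7 : S.card * U.card ≤ 343 * n ^ 3 * U.card := Nat.mul_le_mul_right _ h5
  nlinarith

/-- the boxes not hit by `H` -/
noncomputable def unhit (q : ℕ) (H : Finset (Finset (Fin 7 × Fin n))) : Finset (Bt n) :=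
  univ.filter fun β => Good q β ∧ ∀ t, In t β → tri t ∉ H

theorem iter (q : ℕ) (hq : 0 < q) (hn : 0 < n) (m : ℕ) : 54 * q ^ 3 * m ≤ n ^ 2 →
    ∃ H : Finset (Finset (Fin 7 × Fin n)), Lin7 H ∧ H.card ≤ m ∧
      (700 * q ^ 3) ^ m * (unhit q H).card ≤ (700 * q ^ 3 - 1) ^ m * (343 * 8 ^ n) := by
  induction m with
  | zero =>
    intro _
    refine ⟨∅, ⟨by simp, by simp⟩, by simp, ?_⟩
    rw [pow_zero, pow_zero, one_mul, one_mul]
    refine (card_le_univ _).trans (le_of_eq ?_)
    simp only [Fintype.card_prod, Fintype.card_fin, Fintype.card_finset]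
    have : (8 : ℕ) ^ n = 2 ^ n * (2 ^ n * 2 ^ n) := by
      rw [← mul_pow, ← mul_pow]
      norm_num
    rw [this]
  | succ m ih =>
    intro hm
    obtain ⟨H, hH1, hH2, hH3⟩ := ih (by nlinarith [pow_pos hq 3])
    have hcard : ∀ T ∈ H, T.card ≤ 3 := by
      intro T hT
      obtain ⟨i, j, k, a, b, c, -, -, rfl⟩ := hH1.form T hT
      exact card_le_three
    by_cases hne : (unhit q H).Nonempty
    · obtain ⟨t, ht1, ht2⟩ := step H hcard q (unhit q H)
        (fun β hβ => (mem_filter.1 hβ).2.1) hne hn (by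
          refine le_trans ?_ hm
          exact Nat.mul_le_mul_left _ (by omega))
      refine ⟨insert (tri t) H, ?_, ?_, ?_⟩
      · constructor
        · intro T hT
          rcases mem_insert.1 hT with rfl | hT
          · exact ⟨t.1.1, t.1.2.1, t.1.2.2, t.2.1, t.2.2.1, t.2.2.2, ht1.1.1, ht1.1.2, rfl⟩
          · exact hH1.form T hT
        · intro T hT T' hT' hne
          rcases mem_insert.1 hT with rfl | hT <;> rcases mem_insert.1 hT' with rfl | hT'
          · exact absurd rfl hne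
          · exact ht1.2 T' hT'
          · rw [inter_comm]; exact ht1.2 T hT
          · exact hH1.lin T hT T' hT' hne
      · exact (card_insert_le _ _).trans (by omega)
      · have h1 : unhit q (insert (tri t) H) ⊆
            (unhit q H) \ ((unhit q H).filter fun β => In t β) := by
          intro β hβ
          rw [unhit, mem_filter] at hβ
          obtain ⟨-, h2, h3⟩ := hβ
          rw [mem_sdiff, mem_filter]
          refine ⟨mem_filter.2 ⟨mem_univ _, h2, fun t' ht' h4 => h3 t' ht' (mem_insert_of_mem h4)⟩,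
            fun h4 => h3 t h4.2 (mem_insert_self _ _)⟩
        have h2 := card_le_card h1
        rw [card_sdiff_of_subset (filter_subset _ _)] at h2
        set u := (unhit q H).card
        set h := ((unhit q H).filter fun β => In t β).card
        set u' := (unhit q (insert (tri t) H)).card
        have hR : 1 ≤ 700 * q ^ 3 := by
          have := pow_pos hq 3
          omega
        set R := 700 * q ^ 3
        have hle : h ≤ u := card_le_card (filter_subset _ _)
        have h3 : R * u' ≤ (R - 1) * u := by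
          have e1 : R * u' ≤ R * (u - h) := Nat.mul_le_mul_left _ h2
          have e2 : R * (u - h) + R * h = R * u := by
            rw [← Nat.mul_add, Nat.sub_add_cancel hle]
          have e3 : (R - 1) * u + u = R * u := by
            rw [← Nat.succ_mul, Nat.succ_eq_add_one, Nat.sub_add_cancel hR]
          have e4 : u ≤ R * h := ht2
          linarith
        calc R ^ (m + 1) * u' = R ^ m * (R * u') := by ring
          _ ≤ R ^ m * ((R - 1) * u) := Nat.mul_le_mul_left _ h3
          _ = (R - 1) * (R ^ m * u) := by ring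
          _ ≤ (R - 1) * ((R - 1) ^ m * (343 * 8 ^ n)) := Nat.mul_le_mul_left _ hH3
          _ = _ := by ring
    · refine ⟨H, hH1, by omega, ?_⟩
      rw [not_nonempty_iff_eq_empty.1 hne, card_empty, mul_zero]
      exact Nat.zero_le _

theorem bern (r m : ℕ) : r ^ (m + 1) + (m + 1) * r ^ m ≤ (r + 1) ^ (m + 1) := by
  induction m with
  | zero => simp
  | succ m ih =>
    calc r ^ (m + 1 + 1) + (m + 1 + 1) * r ^ (m + 1)
        ≤ (r + 1) * (r ^ (m + 1) + (m + 1) * r ^ m) := by
          have e : (r + 1) * (r ^ (m + 1) + (m + 1) * r ^ m) =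
            r ^ (m + 1 + 1) + (m + 1 + 1) * r ^ (m + 1) + (m + 1) * r ^ m := by ring
          rw [e]
          exact Nat.le_add_right _ _
      _ ≤ (r + 1) * (r + 1) ^ (m + 1) := Nat.mul_le_mul_left _ ih
      _ = (r + 1) ^ (m + 1 + 1) := by ring

theorem half (R : ℕ) (hR : 1 ≤ R) : 2 * (R - 1) ^ R ≤ R ^ R := by
  obtain ⟨r, rfl⟩ : ∃ r, R = r + 1 := ⟨R - 1, by omega⟩
  rw [Nat.add_sub_cancel]
  have h := bern r r
  have : r ^ (r + 1) ≤ (r + 1) * r ^ r := by rw [pow_succ]; nlinarith [Nat.zero_le (r ^ r)]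
  omega

theorem half_pow (R : ℕ) (hR : 1 ≤ R) (k : ℕ) :
    2 ^ k * (R - 1) ^ (R * k) ≤ R ^ (R * k) := by
  rw [pow_mul, pow_mul, ← mul_pow]
  exact Nat.pow_le_pow_left (half R hR) _

/-- (G) -/
theorem stHyp : StHyp := by
  intro q hq N
  have hq6 := pow_pos hq 6
  refine ⟨N + 1000000 * q ^ 6, by omega, ?_⟩
  set n := N + 1000000 * q ^ 6 with hn
  have hn0 : 0 < n := by omega
  set R := 700 * q ^ 3 with hR
  have hR1 : 1 ≤ R := by
    have := pow_pos hq 3
    omega
  obtain ⟨H, h1, h2, h3⟩ := iter (n := n) q hq hn0 (R * (3 * n + 9)) (by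
    have e1 : 54 * q ^ 3 * (R * (3 * n + 9)) = 37800 * q ^ 6 * (3 * n + 9) := by rw [hR]; ring
    rw [e1]
    have e2 : 1000000 * q ^ 6 ≤ n := by omega
    have e3 : 1000000 * q ^ 6 * n ≤ n * n := Nat.mul_le_mul_right _ e2
    have e4 : q ^ 6 * 1 ≤ q ^ 6 * n := Nat.mul_le_mul_left _ hn0
    nlinarith)
  refine ⟨H, h1, ?_⟩
  have h4 : unhit q H = ∅ := by
    by_contra hne
    have h5 : 1 ≤ (unhit q H).card := card_pos.2 (nonempty_iff_ne_empty.2 hne)
    rw [← hR] at h3
    have h6 : 2 ^ (3 * n + 9) * (R - 1) ^ (R * (3 * n + 9)) ≤ R ^ (R * (3 * n + 9)) :=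
      half_pow R hR1 _
    have h7 : (8 : ℕ) ^ n = 2 ^ (3 * n) := by rw [pow_mul]; norm_num
    have hRpos : 0 < R ^ (R * (3 * n + 9)) := pow_pos hR1 _
    have h8 : (R - 1) ^ (R * (3 * n + 9)) * (343 * 8 ^ n) < R ^ (R * (3 * n + 9)) * 1 := by
      rcases Nat.eq_zero_or_pos ((R - 1) ^ (R * (3 * n + 9))) with h0 | h0
      · rw [h0, zero_mul]; omega
      · calc (R - 1) ^ (R * (3 * n + 9)) * (343 * 8 ^ n) <
            (R - 1) ^ (R * (3 * n + 9)) * 2 ^ (3 * n + 9) := by
              apply Nat.mul_lt_mul_of_pos_left _ h0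
              rw [h7, pow_add]
              have := pow_pos (show 0 < 2 by norm_num) (3 * n)
              omega
          _ ≤ _ := by rw [mul_comm, mul_one]; exact h6
    have h9 : R ^ (R * (3 * n + 9)) * 1 ≤ R ^ (R * (3 * n + 9)) * (unhit q H).card :=
      Nat.mul_le_mul_left _ h5
    omega
  intro i j k hij hjk A B C hA hB hC
  by_contra hcon
  push Not at hcon
  have h5 : ((i, j, k), (A, B, C)) ∈ unhit q H := by
    refine mem_filter.2 ⟨mem_univ _, ⟨⟨hij, hjk⟩, hA, hB, hC⟩, ?_⟩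
    rintro ⟨⟨i', j', k'⟩, ⟨a, b, c⟩⟩ ⟨e1, e2, e3, e4⟩
    simp only [Prod.mk.injEq] at e1
    obtain ⟨rfl, rfl, rfl⟩ := e1
    exact hcon a e2 b e3 c e4
  rw [h4] at h5
  simp at h5

end Pool.Agent.T9h80.Lin
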